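import Pool.Agent.Q10.KZA

/-!
# The abc inequality over the Gaussian integers for almost all triples on a real curve

`t ↦ (P 0 (t) : P 1 (t) : P 2 (t))` is a map of degree `D` from the projective line to the line
`a + b = c` over `ℚ(i)`, all of whose `q` points over the three points with `abc = 0` are defined
over `ℚ(i)`, but not necessarily over `ℚ`. We consider the triples `a + b = c` of coprime Gaussian
integers in the image of the rational `t` (for `D = 1`: the triples with `a / c` on a circle or line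
in the complex plane, at its points in `ℚ(i)`), ordered by their size. Almost all of them satisfy
`max {|a|, |b|, |c|} ≤ c rad(abc) ^ M` if `M > D / q` (`< 1`) and the number of the rational points
among the `q` points is not one.
-/

set_option autoImplicit false

namespace Pool.Agent.Results.MP_dc323a_nt.AlmostAllOnCurves

open Polynomial

/-- the field of fractions `ℚ(i)` of the Gaussian integers -/
abbrev Qi : Type := FractionRing GaussianInt

/-- `max {|a|, |b|, |a + b|}` -/
noncomputable def size (a b : GaussianInt) : ℝ :=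
  max ‖GaussianInt.toComplex a‖ (max ‖GaussianInt.toComplex b‖ ‖GaussianInt.toComplex (a + b)‖)

/-- `rad(n)`: the product of `|Q|` over the Gaussian primes `Q` dividing `n`, one from each class of
associates, namely the one with `Re Q > 0` and `Im Q ≥ 0` -/
noncomputable def rad (n : GaussianInt) : ℝ :=
  ∏ᶠ Q ∈ {Q : GaussianInt | Prime Q ∧ Q ∣ n ∧ (0 < Q.re ∧ 0 ≤ Q.im)}, ‖GaussianInt.toComplex Q‖

/-- `P i` as a polynomial over `ℚ(i)` -/
noncomputable def toQi (P : GaussianInt[X]) : Qi[X] := P.map (algebraMap GaussianInt Qi)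

open Classical in
/-- the points `t` of the projective line (`none` is infinity) with `P 0 (t) P 1 (t) P 2 (t) = 0` -/
noncomputable def zeros (P : Fin 3 → GaussianInt[X]) : Finset (Option Qi) :=
  ((∏ i, toQi (P i)).roots.toFinset).image some ∪
    if ∃ i j, (P i).natDegree < (P j).natDegree then {none} else ∅

open Classical in
/-- the number of the rational points among them -/
noncomputable def rationalZeros (P : Fin 3 → GaussianInt[X]) : ℕ :=
  ((zeros P).filter fun a => ∃ b : Option ℚ, a = Option.map (fun x : ℚ => (x : Qi)) b).card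

/-- the number of the zeros; a rational zero does not count if it is the only one -/
noncomputable def effective (P : Fin 3 → GaussianInt[X]) : ℕ :=
  if rationalZeros P = 1 then (zeros P).card - 1 else (zeros P).card

/-- the pairs `(a, b)` of coprime Gaussian integers with `a b c ≠ 0`, where `c = a + b` -/
def Triples : Set (GaussianInt × GaussianInt) :=
  {p | p.1 ≠ 0 ∧ p.2 ≠ 0 ∧ p.1 + p.2 ≠ 0 ∧ IsCoprime p.1 p.2}

/-- those for which `(a, b, c)` is proportional to `(P 0 (t), P 1 (t), P 2 (t))` for some rational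
number `t` -/
def OnCurve (P : Fin 3 → GaussianInt[X]) : Set (GaussianInt × GaussianInt) :=
  {p | p ∈ Triples ∧ ∃ (t : ℚ) (s : Qi),
    algebraMap GaussianInt Qi p.1 = s * (toQi (P 0)).eval (t : Qi) ∧
    algebraMap GaussianInt Qi p.2 = s * (toQi (P 1)).eval (t : Qi)}

/-- those with `max {|a|, |b|, |c|} ≤ B` -/
def AllUpTo (P : Fin 3 → GaussianInt[X]) (B : ℝ) : Set (GaussianInt × GaussianInt) :=
  {p | p ∈ OnCurve P ∧ size p.1 p.2 ≤ B}

/-- those among them which violate `max {|a|, |b|, |c|} ≤ c rad(abc) ^ M` -/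
def Violations (P : Fin 3 → GaussianInt[X]) (M c B : ℝ) : Set (GaussianInt × GaussianInt) :=
  {p | p ∈ AllUpTo P B ∧ c * rad (p.1 * p.2 * (p.1 + p.2)) ^ M < size p.1 p.2}

section

open Pool.Agent.Q10.KZ.Gi

theorem card_eq {P : Fin 3 → GaussianInt[X]} {D : ℕ} (hdeg : ∀ i, (P i).natDegree ≤ D)
    (hdeg' : ∃ i, (P i).natDegree = D) :
    (zeros P).card = AllThinSetsAtOnce.zeros D P := by
  classical
  unfold zeros AllThinSetsAtOnce.zeros
  rw [Finset.card_union_of_disjoint, Finset.card_image_of_injective _ (Option.some_injective _)]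
  · refine congrArg₂ (· + ·) rfl ?_
    by_cases h : ∃ i j, (P i).natDegree < (P j).natDegree
    · obtain ⟨i, j, hij⟩ := h
      rw [if_pos ⟨i, j, hij⟩, if_pos ⟨i, lt_of_lt_of_le hij (hdeg j)⟩, Finset.card_singleton]
    · rw [if_neg h, if_neg fun h1 => ?_, Finset.card_empty]
      obtain ⟨i, hi⟩ := h1
      obtain ⟨j, hj⟩ := hdeg'
      exact h ⟨i, j, by rw [hj]; exact hi⟩
  · rw [Finset.disjoint_left]
    intro a ha hb
    obtain ⟨r, -, rfl⟩ := Finset.mem_image.1 ha
    split_ifs at hb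
    · simp at hb
    · simp at hb

theorem mason {P : Fin 3 → GaussianInt[X]} (hP : ∀ i, P i ≠ 0) (hsum : P 0 + P 1 = P 2)
    (hcop : IsCoprime (toQi (P 0)) (toQi (P 1))) (hs : ∀ i, (toQi (P i)).Splits)
    {D : ℕ} (hD : 1 ≤ D) (hdeg : ∀ i, (P i).natDegree ≤ D) (hdeg' : ∃ i, (P i).natDegree = D) :
    D + 2 ≤ (zeros P).card := by
  classical
  refine AllThinSetsAtOnce.mason hD
    (H := ∑ i, ∑ k ∈ (P i).support, ‖GaussianInt.toComplex ((P i).coeff k)‖)
    ⟨hP, hsum, hcop, hs, hdeg, hdeg', (card_eq hdeg hdeg').symm, fun i k => ?_⟩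
  by_cases hk : k ∈ (P i).support
  · have h1 : ‖GaussianInt.toComplex ((P i).coeff k)‖ ≤
        ∑ k ∈ (P i).support, ‖GaussianInt.toComplex ((P i).coeff k)‖ :=
      Finset.single_le_sum (f := fun k => ‖GaussianInt.toComplex ((P i).coeff k)‖)
        (fun _ _ => norm_nonneg _) hk
    refine h1.trans ?_
    exact Finset.single_le_sum
      (f := fun i => ∑ k ∈ (P i).support, ‖GaussianInt.toComplex ((P i).coeff k)‖)
      (fun _ _ => Finset.sum_nonneg fun _ _ => norm_nonneg _) (Finset.mem_univ i)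
  · rw [notMem_support_iff.1 hk, map_zero, norm_zero]
    exact Finset.sum_nonneg fun _ _ => Finset.sum_nonneg fun _ _ => norm_nonneg _

end

open Pool.Agent.Q10.KZ Pool.Agent.Q10.KZ.Gi in
/-- **Theorem.** Let `P 0 + P 1 = P 2` be nonzero polynomials over `ℤ[i]` of maximal degree
`D ≥ 1`, coprime over `ℚ(i)`, all of whose zeros are in `ℚ(i)`, `q` the number of their zeros on the
projective line, `r` the number of the rational zeros among them, and `m = q` if `r ≠ 1`,
`m = q - 1` if `r = 1`. Consider the coprime triples `a + b = c` of Gaussian integers proportional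
to `(P 0 (t), P 1 (t), P 2 (t))` for a rational number `t`.

(0) `q ≥ D + 2`.

(1) For all `M, c, δ > 0` at most `C B ^ (2 / (m M) + δ)` of them with `max {|a|, |b|, |c|} ≤ B`
violate `max {|a|, |b|, |c|} ≤ c rad(abc) ^ M`.

(2) For every `δ > 0` and all large `B` at least `B ^ (2 / D - δ)` of them satisfy
`max {|a|, |b|, |c|} ≤ B`.

(3) If `M > D / m`, for example `M = 1` if `r ≠ 1`, then the number in (1) is at most `B ^ (-ν)`
times the number in (2), for some `ν > 0` and all large `B`. -/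
theorem result (P : Fin 3 → GaussianInt[X]) (hP : ∀ i, P i ≠ 0) (hsum : P 0 + P 1 = P 2)
    (hcop : IsCoprime (toQi (P 0)) (toQi (P 1))) (hs : ∀ i, (toQi (P i)).Splits)
    (D : ℕ) (hD : 1 ≤ D) (hdeg : ∀ i, (P i).natDegree ≤ D) (hdeg' : ∃ i, (P i).natDegree = D)
    (q : ℕ) (hq : (zeros P).card = q) :
    D + 2 ≤ q ∧
    (∀ M c δ : ℝ, 0 < M → 0 < c → 0 < δ → ∃ C : ℝ, ∀ B : ℝ, 1 ≤ B →
      ((Violations P M c B).ncard : ℝ) ≤ C * B ^ (2 / ((effective P : ℝ) * M) + δ)) ∧
    (∀ δ : ℝ, 0 < δ → ∃ B₀ : ℝ, ∀ B : ℝ, B₀ ≤ B →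
      B ^ (2 / (D : ℝ) - δ) ≤ ((AllUpTo P B).ncard : ℝ)) ∧
    (∀ M c : ℝ, (D : ℝ) / (effective P : ℝ) < M → 0 < c →
      ∃ ν : ℝ, 0 < ν ∧ ∃ B₀ : ℝ, ∀ B : ℝ, B₀ ≤ B →
      ((Violations P M c B).ncard : ℝ) ≤ B ^ (-ν) * ((AllUpTo P B).ncard : ℝ)) := by
  classical
  have hm := mason hP hsum hcop hs hD hdeg hdeg'
  rw [hq] at hm
  have hz : zeros P = zr P := rfl
  have hzs : effective P = zs P := rfl
  have hq' : (Pool.Agent.Q10.KY.pts (AllThinSetsAtOnce.cv P)).card = q := by
    rw [card_zr hs, ← hz, hq]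
  obtain ⟨⟨h1, -, h3, -⟩, -, h6⟩ := main hP hsum hcop hs hD hdeg hdeg' hq'
  rw [S1_zs hs, ← hzs] at h1 h6
  have hq0 : (0 : ℝ) < q := by exact_mod_cast (by omega : 0 < q)
  have hDR : (0 : ℝ) < D := by exact_mod_cast hD
  obtain ⟨v1, v2, v3⟩ := viol_abs (fun X B => OnXB P X B) (AllUpTo P)
    (fun M c B => Violations P M c B) (S := (effective P : ℝ) / 2) (D := (D : ℝ)) (q := (q : ℝ))
    h6 hDR hq0 h1 (fun κ hκ => h3 κ hκ.le)
    (fun M c B X hM hc hX hB1 hB2 p hp => by
      obtain ⟨⟨g1, g2⟩, g3⟩ := hp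
      refine ⟨g1, ?_, g2.trans hB2⟩
      have hr0 := rad_pos' g1.1
      have g4 : c * rad (p.1 * p.2 * (p.1 + p.2)) ^ M ≤ c * X ^ M := (g3.le.trans g2).trans hB1
      exact (Real.rpow_le_rpow_iff hr0.le (by linarith) hM).1 (le_of_mul_le_mul_left g4 hc))
    (fun X B p hp => ⟨hp.1, hp.2.2⟩)
    (fun B => (size_finite B).subset fun p hp => hp.2)
  refine ⟨hm, ?_, v2, ?_⟩
  · intro M c δ hM hc hδ
    obtain ⟨C, -, h⟩ := v1 M c δ hM hc hδ
    have e : 1 / ((effective P : ℝ) / 2 * M) = 2 / ((effective P : ℝ) * M) := by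
      rw [div_mul_eq_mul_div, one_div_div]
    rw [e] at h
    exact ⟨C, h⟩
  · intro M c hM hc
    refine v3 M c ?_ hc
    rwa [mul_div_cancel₀ _ (two_ne_zero)]

end Pool.Agent.Results.MP_dc323a_nt.AlmostAllOnCurves
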