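import Pool.Agent.Q38.AE.Ints

/-!
# The exceptions to the abc inequality over the Gaussian integers

The coprime triples `a + b = c`, `a b c ≠ 0`, of Gaussian integers are ordered by the radical of
`a b c`. We determine the exponent of the number of those with
`rad(abc) ^ M ≤ max {|a|, |b|, |c|} < rad(abc) ^ L`: it is `2 (1 - M)`, for all `1/3 < M < L` with
`L ≤ 1/2`, and also for `L ≤ 1` when `M ≤ 30/77`.
-/

set_option autoImplicit false

namespace Pool.Agent.Results.MP_dc323a_nt.ExceptionsExactExponent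

open Filter Topology

/-- `max {|a|, |b|, |a + b|}` -/
noncomputable def size (a b : GaussianInt) : ℝ :=
  max ‖GaussianInt.toComplex a‖ (max ‖GaussianInt.toComplex b‖ ‖GaussianInt.toComplex (a + b)‖)

/-- `rad(n)`: the product of `|Q|` over the Gaussian primes `Q` dividing `n`, one from each class of
associates, namely the one with `Re Q > 0` and `Im Q ≥ 0` -/
noncomputable def rad (n : GaussianInt) : ℝ :=
  ∏ᶠ Q ∈ {Q : GaussianInt | Prime Q ∧ Q ∣ n ∧ (0 < Q.re ∧ 0 ≤ Q.im)}, ‖GaussianInt.toComplex Q‖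

/-- the pairs `(a, b)` of coprime Gaussian integers with `a b c ≠ 0`, where `c = a + b` -/
def Triples : Set (GaussianInt × GaussianInt) :=
  {p | p.1 ≠ 0 ∧ p.2 ≠ 0 ∧ p.1 + p.2 ≠ 0 ∧ IsCoprime p.1 p.2}

/-- the triples with `rad(abc) ≤ X` and `rad(abc) ^ M ≤ max {|a|, |b|, |c|} ≤ X ^ L` -/
def Exceptions (M L X : ℝ) : Set (GaussianInt × GaussianInt) :=
  {p | p ∈ Triples ∧ rad (p.1 * p.2 * (p.1 + p.2)) ≤ X ∧
    rad (p.1 * p.2 * (p.1 + p.2)) ^ M ≤ size p.1 p.2 ∧ size p.1 p.2 ≤ X ^ L}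

/-- the triples with `rad(abc) ≤ X` and `rad(abc) ^ M ≤ max {|a|, |b|, |c|} < rad(abc) ^ L` -/
def Between (M L X : ℝ) : Set (GaussianInt × GaussianInt) :=
  {p | p ∈ Triples ∧ rad (p.1 * p.2 * (p.1 + p.2)) ≤ X ∧
    rad (p.1 * p.2 * (p.1 + p.2)) ^ M ≤ size p.1 p.2 ∧
    size p.1 p.2 < rad (p.1 * p.2 * (p.1 + p.2)) ^ L}

open Pool.Agent.TH402.AK (K4 e emb emb_inj e_coe Tri pt coe_ne z4 rad_tri hgt_gauss unit_cases
  rad_pos)
open Pool.Agent.TH876.Loc
open Pool.Agent.Q38.AE.Cov Pool.Agent.Q38.AE.Many Pool.Agent.Q38.AE.Num Pool.Agent.Q38.AE.Ints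
open Pool.Agent.Results.MP_4d5ce1_nt.ExceptionalSetExponents (height counting)

theorem tri {p : GaussianInt × GaussianInt} (h : p ∈ Triples) : Tri (e p.1) (e p.2) := by
  obtain ⟨h1, h2, h3, h4⟩ := h
  refine ⟨?_, ?_, ?_, h4.map e.toRingHom⟩
  · exact (map_ne_zero_iff e e.injective).2 h1
  · exact (map_ne_zero_iff e e.injective).2 h2
  · rw [← map_add]
    exact (map_ne_zero_iff e e.injective).2 h3

/-- minus the point of a pair -/
noncomputable def psi (p : GaussianInt × GaussianInt) : K4 := -(pt (e p.1) (e p.2))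

theorem log_rad {p : GaussianInt × GaussianInt} (h : p ∈ Triples) :
    Real.log (rad (p.1 * p.2 * (p.1 + p.2))) = counting ∅ (al3 K4) (psi p) := by
  have h1 := counting_eq (tri h).pt
  rw [← rad_tri (tri h), Real.log_pow, Pool.Agent.TH402.AK.finrank4] at h1
  push_cast at h1
  have h2 : Real.log (Pool.Agent.TH402.AK.rad (p.1 * p.2 * (p.1 + p.2))) =
    counting ∅ (al3 K4) (-(pt (e p.1) (e p.2))) := by linarith
  exact h2

theorem log_size {p : GaussianInt × GaussianInt} (h : p ∈ Triples) :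
    2 * Real.log (size p.1 p.2) = hgt (pt (e p.1) (e p.2)) := (hgt_gauss (tri h)).symm

theorem size_pos {p : GaussianInt × GaussianInt} (h : p ∈ Triples) : 0 < size p.1 p.2 := by
  refine lt_of_lt_of_le ?_ (le_max_left _ _)
  rw [norm_pos_iff]
  intro h1
  exact h.1 (GaussianInt.toComplex_eq_zero.1 h1)

theorem rad_pos' {p : GaussianInt × GaussianInt} (h : p ∈ Triples) :
    0 < rad (p.1 * p.2 * (p.1 + p.2)) := by
  have h2 := rad_tri (tri h)
  have h3 := one_le_nn (sp (pt (e p.1) (e p.2)))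
  rw [← h2] at h3
  have h4 : 0 ≤ rad (p.1 * p.2 * (p.1 + p.2)) := rad_pos _
  refine lt_of_le_of_ne h4 fun h5 => ?_
  have h6 : Pool.Agent.TH402.AK.rad (p.1 * p.2 * (p.1 + p.2)) = 0 := h5.symm
  rw [h6] at h3
  norm_num at h3

theorem fibre {p q : GaussianInt × GaussianInt} (hp : p ∈ Triples) (hq : q ∈ Triples)
    (h : psi p = psi q) : ∃ u : GaussianInt, IsUnit u ∧ p = (q.1 * u, q.2 * u) := by
  obtain ⟨hp1, hp2, hp3, hp4⟩ := hp
  obtain ⟨hq1, hq2, hq3, hq4⟩ := hq
  have hb1 : ((e p.2 : NumberField.RingOfIntegers K4) : K4) ≠ 0 :=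
    coe_ne ((map_ne_zero_iff e e.injective).2 hp2)
  have hb2 : ((e q.2 : NumberField.RingOfIntegers K4) : K4) ≠ 0 :=
    coe_ne ((map_ne_zero_iff e e.injective).2 hq2)
  have h := neg_injective h
  unfold pt at h
  rw [div_eq_div_iff hb1 hb2, e_coe, e_coe, e_coe, e_coe, ← map_mul, ← map_mul] at h
  have h1 : p.1 * q.2 = q.1 * p.2 := emb_inj h
  have h2 : p.2 ∣ q.2 := by
    refine hp4.symm.dvd_of_dvd_mul_left ?_
    rw [h1]
    exact dvd_mul_left _ _
  have h3 : q.2 ∣ p.2 := by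
    refine hq4.symm.dvd_of_dvd_mul_left ?_
    rw [← h1]
    exact dvd_mul_left _ _
  obtain ⟨u, hu⟩ := associated_of_dvd_dvd h3 h2
  refine ⟨u, u.isUnit, ?_⟩
  refine Prod.ext ?_ hu.symm
  show p.1 = q.1 * u
  apply mul_right_cancel₀ hq2
  rw [h1, ← hu]
  ring

theorem card_le (F : Finset (GaussianInt × GaussianInt)) (G : Finset K4)
    (hF : ∀ p ∈ F, p ∈ Triples) (hG : ∀ p ∈ F, psi p ∈ G) : F.card ≤ 4 * G.card := by
  classical
  have h0 : F.card ≤ 4 * (F.image psi).card := by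
    refine Finset.card_le_mul_card_image F 4 ?_
    intro x hx
    obtain ⟨q, hq, rfl⟩ := Finset.mem_image.1 hx
    have h1 : F.filter (fun a => psi a = psi q) ⊆
        ({1, -1, ⟨0, 1⟩, ⟨0, -1⟩} : Finset GaussianInt).image (fun u => (q.1 * u, q.2 * u)) := by
      intro p hp
      rw [Finset.mem_filter] at hp
      obtain ⟨u, hu, rfl⟩ := fibre (hF p hp.1) (hF q hq) hp.2
      rw [Finset.mem_image]
      refine ⟨u, ?_, rfl⟩
      rcases unit_cases hu with h | h | h | h <;> rw [h] <;> simp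
    refine (Finset.card_le_card h1).trans (Finset.card_image_le.trans ?_)
    exact Finset.card_le_four
  refine h0.trans (Nat.mul_le_mul_left _ (Finset.card_le_card ?_))
  intro x hx
  obtain ⟨p, hp, rfl⟩ := Finset.mem_image.1 hx
  exact hG p hp

theorem exists_coprime (a b : GaussianInt) (hb : b ≠ 0) :
    ∃ a' b' : GaussianInt, IsCoprime a' b' ∧ b' ≠ 0 ∧ a * b' = a' * b := by
  have hg : EuclideanDomain.gcd a b ≠ 0 := by
    intro h
    exact hb (EuclideanDomain.gcd_eq_zero_iff.1 h).2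
  obtain ⟨a', ha'⟩ := EuclideanDomain.gcd_dvd_left a b
  obtain ⟨b', hb'⟩ := EuclideanDomain.gcd_dvd_right a b
  obtain ⟨g, hgg⟩ : ∃ g, g = EuclideanDomain.gcd a b := ⟨_, rfl⟩
  have hbez := EuclideanDomain.gcd_eq_gcd_ab a b
  rw [← hgg] at ha' hb' hg hbez
  refine ⟨a', b', ?_, ?_, ?_⟩
  · refine ⟨EuclideanDomain.gcdA a b, EuclideanDomain.gcdB a b, ?_⟩
    apply mul_left_cancel₀ hg
    linear_combination -hbez - EuclideanDomain.gcdA a b * ha' - EuclideanDomain.gcdB a b * hb'
  · rintro rfl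
    rw [mul_zero] at hb'
    exact hb hb'
  · rw [ha', hb']
    ring

theorem surj {z : K4} (h : Pt z) : ∃ p, p ∈ Triples ∧ psi p = -z := by
  obtain ⟨a, b, hb, hz⟩ := IsFractionRing.div_surjective (A := NumberField.RingOfIntegers K4) z
  have hb0 : b ≠ 0 := nonZeroDivisors.ne_zero hb
  obtain ⟨a', b', h1, h2, h3⟩ := exists_coprime (e.symm a) (e.symm b)
    ((map_ne_zero_iff e.symm e.symm.injective).2 hb0)
  have h4 : a * e b' = e a' * b := by
    have := congrArg e h3
    rwa [map_mul, map_mul, RingEquiv.apply_symm_apply, RingEquiv.apply_symm_apply] at this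
  have h5 : pt (e a') (e b') = z := by
    have hb1 : ((e b' : NumberField.RingOfIntegers K4) : K4) ≠ 0 :=
      coe_ne ((map_ne_zero_iff e e.injective).2 h2)
    have hb3 : (b : K4) ≠ 0 := coe_ne hb0
    rw [← hz]
    unfold pt
    show _ = (a : K4) / (b : K4)
    rw [div_eq_div_iff hb1 hb3]
    have := congrArg (fun t : NumberField.RingOfIntegers K4 => (t : K4)) h4
    push_cast at this
    linear_combination -this
  have hb1 : ((e b' : NumberField.RingOfIntegers K4) : K4) ≠ 0 :=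
    coe_ne ((map_ne_zero_iff e e.injective).2 h2)
  refine ⟨(a', b'), ⟨?_, h2, ?_, h1⟩, ?_⟩
  · rintro (rfl : a' = 0)
    apply h.1
    rw [← h5]
    unfold pt
    simp
  · intro h6
    apply h.2
    rw [← h5]
    have h7 : a' + b' = 0 := h6
    have h8 : a' = -b' := by linear_combination h7
    rw [h8, map_neg]
    unfold pt
    push_cast
    rw [neg_div, div_self hb1]
    ring
  · show -(pt (e a') (e b')) = -z
    rw [h5]

theorem mdl : Pool.Agent.Q38.AE.Model.Mdl (q := 3) (fun p => p ∈ Triples)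
    (fun p => Real.log (size p.1 p.2)) (fun p => Real.log (rad (p.1 * p.2 * (p.1 + p.2)))) ∅
    (al3 K4) psi 1 (Real.log 2) 4 where
  r_pos := one_pos
  c_nonneg := Real.log_nonneg one_le_two
  fin := Set.finite_empty
  ne := al3_ne
  dist := al3_dist
  off := fun p hp => (off_iff _).2 (neg_pt (tri hp).pt)
  surj := by
    intro z hz
    obtain ⟨h0, h1⟩ := (off_iff z).1 hz
    obtain ⟨p, hp, h⟩ := surj (pt_neg h0 h1)
    exact ⟨p, hp, by rw [h, neg_neg]⟩
  fib := fun F G hF hG => card_le F G hF hG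
  h_low := by
    intro p hp
    have h1 := le_hgt' (tri hp).pt
    rw [← log_size hp, Pool.Agent.TH402.AK.finrank4] at h1
    push_cast at h1
    have h2 : height (psi p) ≤ Real.log (size p.1 p.2) := by
      show height (-(pt (e p.1) (e p.2))) ≤ _
      linarith
    linarith
  h_up := by
    intro p hp
    have h1 := hgt_le' (tri hp).pt
    rw [← log_size hp, Pool.Agent.TH402.AK.finrank4] at h1
    push_cast at h1
    have h2 : Real.log (size p.1 p.2) ≤ height (psi p) + Real.log 2 := by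
      show _ ≤ height (-(pt (e p.1) (e p.2))) + _
      linarith
    linarith
  N_low := by
    intro p hp
    rw [one_mul, log_rad hp]
  N_up := by
    intro p hp
    have := Real.log_nonneg (one_le_two (α := ℝ))
    rw [one_mul, log_rad hp]
    linarith

theorem eqE {X : ℝ} (hX : 1 ≤ X) (M L : ℝ) : Exceptions M L X = E (fun p => p ∈ Triples)
    (fun p => Real.log (size p.1 p.2))
    (fun p => Real.log (rad (p.1 * p.2 * (p.1 + p.2)))) M L X := by
  have hX0 : 0 < X := by linarith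
  ext p
  constructor
  · rintro ⟨h1, h2, h3, h4⟩
    have r := rad_pos' h1
    have s := size_pos h1
    refine ⟨h1, ?_, ?_, ?_⟩
    · rw [Real.exp_log r]
      exact h2
    · rw [← Real.log_rpow r]
      exact Real.log_le_log (Real.rpow_pos_of_pos r _) h3
    · rw [← Real.log_rpow hX0]
      exact Real.log_le_log s h4
  · rintro ⟨h1, h2, h3, h4⟩
    have r := rad_pos' h1
    have s := size_pos h1
    refine ⟨h1, ?_, ?_, ?_⟩
    · rw [Real.exp_log r] at h2
      exact h2
    · rw [← Real.log_le_log_iff (Real.rpow_pos_of_pos r _) s, Real.log_rpow r]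
      exact h3
    · rw [← Real.log_le_log_iff s (Real.rpow_pos_of_pos hX0 _), Real.log_rpow hX0]
      exact h4

theorem eqF (M L X : ℝ) : Between M L X = F (fun p => p ∈ Triples)
    (fun p => Real.log (size p.1 p.2))
    (fun p => Real.log (rad (p.1 * p.2 * (p.1 + p.2)))) M L X := by
  ext p
  constructor
  · rintro ⟨h1, h2, h3, h4⟩
    have r := rad_pos' h1
    have s := size_pos h1
    refine ⟨h1, ?_, ?_, ?_⟩
    · rw [Real.exp_log r]
      exact h2
    · rw [← Real.log_rpow r]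
      exact Real.log_le_log (Real.rpow_pos_of_pos r _) h3
    · rw [← Real.log_rpow r]
      exact Real.log_lt_log s h4
  · rintro ⟨h1, h2, h3, h4⟩
    have r := rad_pos' h1
    have s := size_pos h1
    refine ⟨h1, ?_, ?_, ?_⟩
    · rw [Real.exp_log r] at h2
      exact h2
    · rw [← Real.log_le_log_iff (Real.rpow_pos_of_pos r _) s, Real.log_rpow r]
      exact h3
    · rw [← Real.log_lt_log_iff s (Real.rpow_pos_of_pos r _), Real.log_rpow r]
      exact h4

/-- Let `1/3 < M < L`, and suppose that `L ≤ 1/2`, or that `L ≤ 1` and `M ≤ 30/77`. For every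
`X ≥ 1` there are only finitely many coprime triples `a + b = c`, `a b c ≠ 0`, of Gaussian integers
with `rad(abc) ≤ X` and `rad(abc) ^ M ≤ max {|a|, |b|, |c|} ≤ X ^ L`; their number is
`X ^ (2 (1 - M) + o(1))` for `X → ∞`, and so is the number of the triples with `rad(abc) ≤ X` and
`rad(abc) ^ M ≤ max {|a|, |b|, |c|} < rad(abc) ^ L`. -/
theorem result (M L : ℝ) (hM : 1 / 3 < M) (hML : M < L) (hL : L ≤ 1 / 2 ∨ (L ≤ 1 ∧ M ≤ 30 / 77)) :
    (∀ X : ℝ, 1 ≤ X → (Exceptions M L X).Finite ∧ Between M L X ⊆ Exceptions M L X) ∧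
    Tendsto (fun X : ℝ => Real.log ((Exceptions M L X).ncard : ℝ) / Real.log X) atTop
      (𝓝 (2 * (1 - M))) ∧
    Tendsto (fun X : ℝ => Real.log ((Between M L X).ncard : ℝ) / Real.log X) atTop
      (𝓝 (2 * (1 - M))) := by
  have hM' : 1 / ((3 : ℕ) : ℝ) < M := by push_cast; exact hM
  have hL' : L ≤ 7 / (7 * ((3 : ℕ) : ℝ) - 6) ∨ ((3 : ℕ) = 3 ∧ L ≤ 1 / 2) ∨
      (L ≤ 3 / ((3 : ℕ) : ℝ) ∧ (((3 : ℕ) : ℝ) - 2) * M ≤ 1 - top 3) := by
    rcases hL with h | ⟨h1, h2⟩
    · exact Or.inr (Or.inl ⟨rfl, h⟩)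
    · refine Or.inr (Or.inr ⟨by norm_num; exact h1, ?_⟩)
      have e : top 3 = 47 / 77 := by
        unfold top
        norm_num
      rw [e]
      push_cast
      linarith
  have ee : (Module.finrank ℚ K4 : ℝ) / 1 * (1 - (((3 : ℕ) : ℝ) - 2) * M) = 2 * (1 - M) := by
    rw [Pool.Agent.TH402.AK.finrank4]
    push_cast
    ring
  obtain ⟨h1, h2, h3⟩ := Pool.Agent.Q38.AE.Model.exact_m mdl le_rfl hM' hML hL'
  rw [ee] at h2 h3
  refine ⟨fun X hX => ?_, ?_, ?_⟩
  · rw [eqE hX, eqF]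
    exact h1 X hX
  · refine h2.congr' ?_
    filter_upwards [eventually_ge_atTop 1] with X hX
    rw [eqE hX]
  · refine h3.congr fun X => ?_
    rw [eqF]

end Pool.Agent.Results.MP_dc323a_nt.ExceptionsExactExponent
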