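import Pool.Agent.Q245.Gi.Main

/-!
# The abc conjecture over the Gaussian integers for the triples with two members of equal size

The coprime triples `a + b = c` of Gaussian integers with `|a| = |b|` are, up to a common factor
`± 1`, `± i`, the triples `(z, - conj z, 2 i y)` for coprime integers `x`, `y` of opposite parity,
`z = x + i y`, and the triples `(z, - conj z, 2 i y) / (1 + i)` for odd coprime `x`, `y`; for them
`abc` is, up to a factor dividing `4`, `y (x² + y²)`. In geometric terms they are the rational
points of the form of `ℙ¹ ∖ {0, 1, ∞}` over `ℚ` for which two of the three points are conjugate over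
`ℚ(i)`. We show that the conjecture over `ℤ[i]` for these triples is equivalent to the classical
`abc` conjecture over `ℤ`.

The proof uses the theorem of the hand-in `MP_9ec3f0_nt.ConjugatePairSuffices` for the cubic form
`y (x² + y²)`: a covering of the line by itself which is ramified only over `y (x² + y²) = 0` and
sends three rational points to `y = 0`.
-/

set_option autoImplicit false

namespace Pool.Agent.Results.MP_dc323a_nt.IsoscelesTriples

/-- the product of the primes which divide the integer `n` -/
def rad (n : ℤ) : ℕ := ∏ p ∈ n.natAbs.primeFactors, p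

/-- the classical `abc` conjecture -/
def ABC : Prop :=
  ∀ ε : ℝ, 0 < ε → ∃ κ : ℝ, ∀ a b : ℤ, 0 < a → 0 < b → IsCoprime a b →
    ((a + b : ℤ) : ℝ) ≤ κ * (rad (a * b * (a + b)) : ℝ) ^ (1 + ε)

/-- `S` contains exactly one Gaussian prime from each class of associated Gaussian primes dividing
`x`; so `∏ Q ∈ S, |Q|` is `rad(x)` -/
def System (S : Finset GaussianInt) (x : GaussianInt) : Prop :=
  (∀ Q ∈ S, Prime Q ∧ Q ∣ x) ∧ (∀ Q : GaussianInt, Prime Q → Q ∣ x → ∃ R ∈ S, Associated Q R) ∧
    ∀ Q ∈ S, ∀ R ∈ S, Associated Q R → Q = R

/-- the conjecture over the Gaussian integers for the triples with `|a| = |b|` -/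
def IsoscelesABC : Prop :=
  ∀ ε : ℝ, 0 < ε → ∃ C : ℝ, 0 < C ∧ ∀ a b c : GaussianInt, a + b = c → IsCoprime a b →
    a * b * c ≠ 0 → ‖GaussianInt.toComplex a‖ = ‖GaussianInt.toComplex b‖ →
    ∀ S : Finset GaussianInt, System S (a * b * c) →
      C * (max ‖GaussianInt.toComplex a‖
            (max ‖GaussianInt.toComplex b‖ ‖GaussianInt.toComplex c‖)) ^ (1 - ε)
        ≤ ∏ Q ∈ S, ‖GaussianInt.toComplex Q‖

/-- **The abc conjecture over `ℤ[i]` for the triples with `|a| = |b|` is equivalent to the classical
abc conjecture over `ℤ`.** -/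
theorem result : IsoscelesABC ↔ ABC :=
  Pool.Agent.Q245.Gi.main

end Pool.Agent.Results.MP_dc323a_nt.IsoscelesTriples
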