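import Pool.Agent.Q10.KZA

/-!
# The abc inequality over the Gaussian integers at rational parameters

`t ↦ (P 0 (t) : P 1 (t) : P 2 (t))` is a map of degree `D` from the projective line to the line
`a + b = c` over `ℚ(i)`, all of whose `q` points over the three points with `abc = 0` are defined
over `ℚ(i)`, but not necessarily over `ℚ`. We consider the triples `a + b = c` of coprime Gaussian
integers in the image of the rational `t` (for `D = 1`: the triples with `a / c` on a circle or line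
in the complex plane, at its points in `ℚ(i)`), and count those with a small radical: all of them,
whatever their size, and those of polynomially bounded size.
-/

set_option autoImplicit false

namespace Pool.Agent.Results.MP_dc323a_nt.RationalParameters

open Polynomial

/-- the field of fractions `ℚ(i)` of the Gaussian integers -/
abbrev Qi : Type := FractionRing GaussianInt

/-- `max {|a|, |b|, |a + b|}` -/
noncomputable def size (a b : GaussianInt) : ℝ :=
  max ‖GaussianInt.toComplex a‖ (max ‖GaussianInt.toComplex b‖ ‖GaussianInt.toComplex (a + b)‖)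

/-- `rad(n)`: the product of `|Q|` over the Gaussian primes `Q` dividing `n`, one from each class of
associates, namely the one with `Re Q > 0` and `Im Q ≥ 0` -/
noncomputable def rad (n : GaussianInt) : ℝ :=
  ∏ᶠ Q ∈ {Q : GaussianInt | Prime Q ∧ Q ∣ n ∧ (0 < Q.re ∧ 0 ≤ Q.im)}, ‖GaussianInt.toComplex Q‖

/-- `P i` as a polynomial over `ℚ(i)` -/
noncomputable def toQi (P : GaussianInt[X]) : Qi[X] := P.map (algebraMap GaussianInt Qi)

open Classical in
/-- the points `t` of the projective line (`none` is infinity) with `P 0 (t) P 1 (t) P 2 (t) = 0` -/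
noncomputable def zeros (P : Fin 3 → GaussianInt[X]) : Finset (Option Qi) :=
  ((∏ i, toQi (P i)).roots.toFinset).image some ∪
    if ∃ i j, (P i).natDegree < (P j).natDegree then {none} else ∅

open Classical in
/-- the number of the rational points among them -/
noncomputable def rationalZeros (P : Fin 3 → GaussianInt[X]) : ℕ :=
  ((zeros P).filter fun a => ∃ b : Option ℚ, a = Option.map (fun x : ℚ => (x : Qi)) b).card

/-- the number of the zeros; a rational zero does not count if it is the only one -/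
noncomputable def effective (P : Fin 3 → GaussianInt[X]) : ℕ :=
  if rationalZeros P = 1 then (zeros P).card - 1 else (zeros P).card

/-- the pairs `(a, b)` of coprime Gaussian integers with `a b c ≠ 0`, where `c = a + b` -/
def Triples : Set (GaussianInt × GaussianInt) :=
  {p | p.1 ≠ 0 ∧ p.2 ≠ 0 ∧ p.1 + p.2 ≠ 0 ∧ IsCoprime p.1 p.2}

/-- those for which `(a, b, c)` is proportional to `(P 0 (t), P 1 (t), P 2 (t))` for some rational
number `t` -/
def OnCurve (P : Fin 3 → GaussianInt[X]) : Set (GaussianInt × GaussianInt) :=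
  {p | p ∈ Triples ∧ ∃ (t : ℚ) (s : Qi),
    algebraMap GaussianInt Qi p.1 = s * (toQi (P 0)).eval (t : Qi) ∧
    algebraMap GaussianInt Qi p.2 = s * (toQi (P 1)).eval (t : Qi)}

/-- those with `rad(abc) ≤ X`; there is no condition on the size -/
def ByRadical (P : Fin 3 → GaussianInt[X]) (X : ℝ) : Set (GaussianInt × GaussianInt) :=
  {p | p ∈ OnCurve P ∧ rad (p.1 * p.2 * (p.1 + p.2)) ≤ X}

/-- those with `rad(abc) ≤ X` and `max {|a|, |b|, |c|} ≤ B` -/
def ByRadicalUpTo (P : Fin 3 → GaussianInt[X]) (X B : ℝ) : Set (GaussianInt × GaussianInt) :=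
  {p | p ∈ OnCurve P ∧ rad (p.1 * p.2 * (p.1 + p.2)) ≤ X ∧ size p.1 p.2 ≤ B}

section

open Pool.Agent.Q10.KZ.Gi

theorem byRadicalUpTo_eq (P : Fin 3 → GaussianInt[X]) (X B : ℝ) :
    ByRadicalUpTo P X B = OnXB P X B := rfl

theorem byRadical_eq (P : Fin 3 → GaussianInt[X]) (X : ℝ) : ByRadical P X = OnX P X := rfl

theorem card_eq {P : Fin 3 → GaussianInt[X]} {D : ℕ} (hdeg : ∀ i, (P i).natDegree ≤ D)
    (hdeg' : ∃ i, (P i).natDegree = D) :
    (zeros P).card = AllThinSetsAtOnce.zeros D P := by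
  classical
  unfold zeros AllThinSetsAtOnce.zeros
  rw [Finset.card_union_of_disjoint, Finset.card_image_of_injective _ (Option.some_injective _)]
  · refine congrArg₂ (· + ·) rfl ?_
    by_cases h : ∃ i j, (P i).natDegree < (P j).natDegree
    · obtain ⟨i, j, hij⟩ := h
      rw [if_pos ⟨i, j, hij⟩, if_pos ⟨i, lt_of_lt_of_le hij (hdeg j)⟩, Finset.card_singleton]
    · rw [if_neg h, if_neg fun h1 => ?_, Finset.card_empty]
      obtain ⟨i, hi⟩ := h1
      obtain ⟨j, hj⟩ := hdeg'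
      exact h ⟨i, j, by rw [hj]; exact hi⟩
  · rw [Finset.disjoint_left]
    intro a ha hb
    obtain ⟨r, -, rfl⟩ := Finset.mem_image.1 ha
    split_ifs at hb
    · simp at hb
    · simp at hb

theorem mason {P : Fin 3 → GaussianInt[X]} (hP : ∀ i, P i ≠ 0) (hsum : P 0 + P 1 = P 2)
    (hcop : IsCoprime (toQi (P 0)) (toQi (P 1))) (hs : ∀ i, (toQi (P i)).Splits)
    {D : ℕ} (hD : 1 ≤ D) (hdeg : ∀ i, (P i).natDegree ≤ D) (hdeg' : ∃ i, (P i).natDegree = D) :
    D + 2 ≤ (zeros P).card := by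
  classical
  refine AllThinSetsAtOnce.mason hD
    (H := ∑ i, ∑ k ∈ (P i).support, ‖GaussianInt.toComplex ((P i).coeff k)‖)
    ⟨hP, hsum, hcop, hs, hdeg, hdeg', (card_eq hdeg hdeg').symm, fun i k => ?_⟩
  by_cases hk : k ∈ (P i).support
  · have h1 : ‖GaussianInt.toComplex ((P i).coeff k)‖ ≤
        ∑ k ∈ (P i).support, ‖GaussianInt.toComplex ((P i).coeff k)‖ :=
      Finset.single_le_sum (f := fun k => ‖GaussianInt.toComplex ((P i).coeff k)‖)
        (fun _ _ => norm_nonneg _) hk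
    refine h1.trans ?_
    exact Finset.single_le_sum
      (f := fun i => ∑ k ∈ (P i).support, ‖GaussianInt.toComplex ((P i).coeff k)‖)
      (fun _ _ => Finset.sum_nonneg fun _ _ => norm_nonneg _) (Finset.mem_univ i)
  · rw [notMem_support_iff.1 hk, map_zero, norm_zero]
    exact Finset.sum_nonneg fun _ _ => Finset.sum_nonneg fun _ _ => norm_nonneg _

end

open Pool.Agent.Q10.KZ Pool.Agent.Q10.KZ.Gi in
/-- **Theorem.** Let `P 0 + P 1 = P 2` be nonzero polynomials over `ℤ[i]` of maximal degree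
`D ≥ 1`, coprime over `ℚ(i)`, all of whose zeros are in `ℚ(i)`, `q` the number of their zeros on the
projective line, `r` the number of the rational zeros among them, and `m = q` if `r ≠ 1`,
`m = q - 1` if `r = 1`. Consider the coprime triples `a + b = c` of Gaussian integers proportional
to `(P 0 (t), P 1 (t), P 2 (t))` for a rational number `t`.

(0) `q ≥ D + 2`.

(1) For all `κ, ε > 0` at most `C X ^ (2 / m + ε)` of them have `rad(abc) ≤ X` and
`max {|a|, |b|, |c|} ≤ X ^ κ`.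

(2) If `r ≥ 3`, then at most `C X ^ (2 / r + ε)` of them have `rad(abc) ≤ X`, whatever their size.

(3) For `κ ≥ D / q` and large `X` at least `c X ^ (2 / q)` of them have `rad(abc) ≤ X` and
`max {|a|, |b|, |c|} ≤ X ^ κ`.

(4) If `r ≠ 1`, then for every `κ ≥ D / q` the number of the triples in (3) is
`X ^ (2 / q + o(1))`. -/
theorem result (P : Fin 3 → GaussianInt[X]) (hP : ∀ i, P i ≠ 0) (hsum : P 0 + P 1 = P 2)
    (hcop : IsCoprime (toQi (P 0)) (toQi (P 1))) (hs : ∀ i, (toQi (P i)).Splits)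
    (D : ℕ) (hD : 1 ≤ D) (hdeg : ∀ i, (P i).natDegree ≤ D) (hdeg' : ∃ i, (P i).natDegree = D)
    (q : ℕ) (hq : (zeros P).card = q) :
    D + 2 ≤ q ∧
    (∀ κ ε : ℝ, 0 < κ → 0 < ε → ∃ C : ℝ, ∀ X : ℝ, 1 ≤ X →
      (ByRadicalUpTo P X (X ^ κ)).Finite ∧
      ((ByRadicalUpTo P X (X ^ κ)).ncard : ℝ) ≤ C * X ^ (2 / (effective P : ℝ) + ε)) ∧
    (3 ≤ rationalZeros P → ∀ ε : ℝ, 0 < ε → ∃ C : ℝ, ∀ X : ℝ, 1 ≤ X →
      (ByRadical P X).Finite ∧
      ((ByRadical P X).ncard : ℝ) ≤ C * X ^ (2 / (rationalZeros P : ℝ) + ε)) ∧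
    (∀ κ : ℝ, (D : ℝ) / q ≤ κ → ∃ c : ℝ, 0 < c ∧ ∃ X₀ : ℝ, ∀ X : ℝ, X₀ ≤ X →
      c * X ^ (2 / (q : ℝ)) ≤ ((ByRadicalUpTo P X (X ^ κ)).ncard : ℝ)) ∧
    (rationalZeros P ≠ 1 → ∀ κ : ℝ, (D : ℝ) / q ≤ κ →
      ∀ δ : ℝ, 0 < δ → ∃ X₀ : ℝ, ∀ X : ℝ, X₀ ≤ X →
        X ^ (2 / (q : ℝ) - δ) ≤ ((ByRadicalUpTo P X (X ^ κ)).ncard : ℝ) ∧
        ((ByRadicalUpTo P X (X ^ κ)).ncard : ℝ) ≤ X ^ (2 / (q : ℝ) + δ)) := by
  classical
  have hm := mason hP hsum hcop hs hD hdeg hdeg'
  rw [hq] at hm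
  have hz : zeros P = zr P := rfl
  have hzq : rationalZeros P = zq P := rfl
  have hzs : effective P = zs P := rfl
  have hq' : (Pool.Agent.Q10.KY.pts (AllThinSetsAtOnce.cv P)).card = q := by
    rw [card_zr hs, ← hz, hq]
  obtain ⟨⟨h1, h2, h3, h4⟩, -, -⟩ := main hP hsum hcop hs hD hdeg hdeg' hq'
  rw [S1_zs hs, ← hzs] at h1
  rw [S2_zq hs, ← hzq] at h2
  rw [card_zq hs, ← hzq] at h4
  have hinv : 1 / ((effective P : ℝ) / 2) = 2 / (effective P : ℝ) := one_div_div _ _
  refine ⟨hm, ?_, ?_, ?_, ?_⟩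
  · intro κ ε hκ hε
    obtain ⟨C, -, h⟩ := h1 κ ε hκ hε
    rw [hinv] at h
    exact ⟨C, h⟩
  · intro h3r ε hε
    rw [if_pos h3r] at h2
    have hr0 : (0 : ℝ) < rationalZeros P := by
      exact_mod_cast (by omega : 0 < rationalZeros P)
    obtain ⟨C, -, h⟩ := h2 (by positivity) ε hε
    rw [one_div_div] at h
    exact ⟨C, h⟩
  · intro κ hκ
    obtain ⟨c, hc, X₀, -, h⟩ := h3 κ hκ
    exact ⟨c, hc, X₀, h⟩
  · intro hr κ hκ δ hδ
    obtain ⟨X₀, -, h⟩ := h4 (fun a _ => dgr_two a) hr κ hκ δ hδ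
    exact ⟨X₀, h⟩

end Pool.Agent.Results.MP_dc323a_nt.RationalParameters
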